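import Pool.Agent.Run7.h94.Conic3

/-!
# Real rational curves of bounded degree on Fano complete intersections without real points

Let `X` be the zero locus in the weighted projective space `P(w_1, …, w_N)` (for example in
`P^{N-1}`, all `w_i = 1`) of real weighted homogeneous polynomials of degrees `d_1, …, d_r` with
`d_1 + … + d_r < w_1 + … + w_N`, and suppose that `X` has no real points.  Then there is a
nonconstant morphism defined over the real numbers from the conic `C_0 : x² + y² + z² = 0` to `X`.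
It is given by forms `s_i` of degree `k w_i` in `x, y, z`, for every `k ≥ 1` with
`2 k (∑ w_i - ∑ d_j) > N - r`.
-/

set_option autoImplicit false

namespace Pool.Agent.Results.MP_73c785_ag.FanoCompleteIntersections

open MvPolynomial

/-- Let `f_1, …, f_r` be real polynomials in `N` variables, weighted homogeneous of degrees
`d_j ≥ 1` for weights `w_i ≥ 1`, without common real zero `v ≠ 0`, and let `k ≥ 1` satisfy
`2 k (∑ w_i - ∑ d_j) > N - r`.  Then there are real forms `s_i` of degree `w_i k` in three variables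
such that for the points `p` of the conic `x² + y² + z² = 0`:
* `f_j (s(p)) = 0` for all `j`;
* `s(p) ≠ 0` for some `p`;
* if `s(p) ≠ 0`, then `s(p)` and `s(p̄)` are not equivalent under the action
  `(c_i) ↦ (l ^ {w_i} c_i)`, that is, the map is not constant near `p` and `p̄`. -/
theorem result {N r : ℕ} (w : Fin N → ℕ) (hw : ∀ i, 1 ≤ w i) (d : Fin r → ℕ) (hd : ∀ j, 1 ≤ d j)
    (f : Fin r → MvPolynomial (Fin N) ℝ) (hf : ∀ j, (f j).IsWeightedHomogeneous w (d j))
    (hR : ∀ v : Fin N → ℝ, (∀ j, eval v (f j) = 0) → v = 0)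
    (k : ℕ) (hk : 1 ≤ k) (hN : 2 * k * ∑ j, d j + N < 2 * k * ∑ i, w i + r) :
    ∃ s : Fin N → MvPolynomial (Fin 3) ℝ, (∀ i, (s i).IsHomogeneous (w i * k)) ∧
      (∀ p : Fin 3 → ℂ, p 0 ^ 2 + p 1 ^ 2 + p 2 ^ 2 = 0 →
        ∀ j, aeval (fun i => aeval p (s i)) (f j) = 0) ∧
      (∃ p : Fin 3 → ℂ, p 0 ^ 2 + p 1 ^ 2 + p 2 ^ 2 = 0 ∧ ∃ i, aeval p (s i) ≠ 0) ∧
      ∀ p : Fin 3 → ℂ, p 0 ^ 2 + p 1 ^ 2 + p 2 ^ 2 = 0 → (∃ i, aeval p (s i) ≠ 0) →
        ¬ ∃ l : ℂ, ∀ i, aeval (fun e => (starRingEnd ℂ) (p e)) (s i) = l ^ w i * aeval p (s i) :=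
  Run7.h94.Con.main w hw d hd f hf hR k hk hN

end Pool.Agent.Results.MP_73c785_ag.FanoCompleteIntersections
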